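import Pool.Agent.H23.QCF.Targets

/-!
# Small lemmas for block K
-/

set_option autoImplicit false

open NumberField IsDedekindDomain
open Pool.Agent.H32.QC (Sol hil Iso FPl Pl ic hs sqAt HasseConic ProdFormula Prescribed)

namespace Pool.Agent.H23.QCF

section one

variable {K : Type} [Field K] [NumberField K]

lemma hil_pm {L : Type*} [Field L] (a b : L) : hil a b = 1 ∨ hil a b = -1 := by
  unfold hil
  split_ifs <;> simp

lemma hil_eq_one_iff {L : Type*} [Field L] (a b : L) : hil a b = 1 ↔ Sol a b := by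
  unfold hil
  split_ifs with h <;> simp [h]

lemma hs_pm (p : Pl K) (a b : K) : hs p a b = 1 ∨ hs p a b = -1 := by
  cases p
  · exact hil_pm _ _
  · exact hil_pm _ _

lemma hs_ne_neg_iff (p : Pl K) (a b : K) : hs p a b ≠ -1 ↔ hs p a b = 1 := by
  rcases hs_pm p a b with h | h <;> simp [h]

lemma hs_ne_one_iff (p : Pl K) (a b : K) : hs p a b ≠ 1 ↔ hs p a b = -1 := by
  rcases hs_pm p a b with h | h <;> simp [h]

lemma sqAt_of_isSquare (p : Pl K) {a : K} (h : IsSquare a) : sqAt p a := by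
  cases p with
  | inl v => exact h.map (ic v)
  | inr φ => exact h.map φ

lemma not_isSquare_of_not_sqAt {p : Pl K} {a : K} (h : ¬ sqAt p a) : ¬ IsSquare a :=
  fun h' => h (sqAt_of_isSquare p h')

omit [NumberField K] in
lemma mem_sqs {a : Kˣ} : a ∈ sqs K ↔ IsSquare (a : K) := by
  constructor
  · rintro ⟨b, hb⟩
    refine ⟨(b : K), ?_⟩
    rw [← hb]
    simp [pow_two]
  · rintro ⟨c, hc⟩
    have h0 : c ≠ 0 := by
      rintro rfl
      exact a.ne_zero (by rw [hc, mul_zero])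
    refine ⟨Units.mk0 c h0, ?_⟩
    ext
    simp [hc, pow_two]

lemma mem_SQ {p : Pl K} {a : Kˣ} : a ∈ SQ p ↔ sqAt p (a : K) := Iff.rfl

lemma mem_SQS {A : Set (Pl K)} {a : Kˣ} : a ∈ SQS A ↔ ∀ p, p ∈ A → sqAt p (a : K) := by
  unfold SQS
  simp only [Subgroup.mem_iInf, mem_SQ]

lemma mem_US {S : Set (FPl K)} {a : Kˣ} :
    a ∈ US S ↔ ∀ v, v ∉ S → v.valuation K (a : K) = 1 := Iff.rfl

lemma sqs_le_SQS (A : Set (Pl K)) : sqs K ≤ SQS A := by
  intro a ha
  rw [mem_SQS]
  exact fun p _ => sqAt_of_isSquare p (mem_sqs.1 ha)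

lemma US_mono {S S' : Set (FPl K)} (h : S ⊆ S') : US S ≤ US S' :=
  fun _ ha v hv => ha v (fun h' => hv (h h'))

lemma exp_val (v : FPl K) {x : K} (hx : x ≠ 0) : ∃ n : ℤ, v.valuation K x = WithZero.exp n := by
  have h : v.valuation K x ≠ 0 := by simpa using hx
  exact ⟨WithZero.log (v.valuation K x), (WithZero.exp_log h).symm⟩

lemma supp_fin {x : K} (hx : x ≠ 0) : {v : FPl K | v.valuation K x ≠ 1}.Finite := by
  refine ((HeightOneSpectrum.Support.finite (𝓞 K) x).union
    (HeightOneSpectrum.Support.finite (𝓞 K) x⁻¹)).subset ?_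
  intro v hv
  have h0 : v.valuation K x ≠ 0 := by simpa using hx
  rcases lt_or_gt_of_ne (show v.valuation K x ≠ 1 from hv) with h | h
  · right
    show 1 < v.valuation K x⁻¹
    rw [map_inv₀]
    exact (one_lt_inv₀ (zero_lt_iff.2 h0)).2 h
  · left
    exact h

lemma Sp_fin {S : Set (FPl K)} (hS : S.Finite) : (Sp S).Finite := by
  refine ((hS.image Sum.inl).union (Set.finite_range (Sum.inr : (K →+* ℝ) → Pl K))).subset ?_
  intro p hp
  rcases p with v | φ
  · left
    exact ⟨v, hp v rfl, rfl⟩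
  · right
    exact ⟨φ, rfl⟩

lemma Sp_mono {S S' : Set (FPl K)} (h : S ⊆ S') : Sp S ⊆ Sp S' :=
  fun _ hp v hv => h (hp v hv)

lemma mem_Sp_inl {S : Set (FPl K)} {v : FPl K} : (Sum.inl v : Pl K) ∈ Sp S ↔ v ∈ S := by
  constructor
  · intro h
    exact h v rfl
  · intro h w hw
    rw [← Sum.inl.inj hw]
    exact h

lemma mem_Sp_inr {S : Set (FPl K)} {φ : K →+* ℝ} : (Sum.inr φ : Pl K) ∈ Sp S :=
  fun _ hw => absurd hw (by simp)

lemma NS_fin {S : Set (FPl K)} (hS : S.Finite) (t : K) : (NS S t).Finite :=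
  (Sp_fin hS).subset fun _ hp => hp.1

lemma Good.mono {S S' : Set (FPl K)} (h : Good S) (hSS : S ⊆ S') (hf : S'.Finite) : Good S' where
  fin := hf
  dy := fun v hv => h.dy v (fun h' => hv (hSS h'))
  pr := by
    intro v hv
    obtain ⟨π, h1, h2⟩ := h.pr v (fun h' => hv (hSS h'))
    exact ⟨π, h1, fun v' hv' hne => h2 v' (fun h' => hv' (hSS h')) hne⟩

/-- if the places of `S'` outside `S` are split the nonsplit places are the same -/
lemma NS_eq {S S' : Set (FPl K)} (hSS : S ⊆ S') {t : K}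
    (h : ∀ v, v ∈ S' → v ∉ S → sqAt (Sum.inl v) t) : NS S' t = NS S t := by
  ext p
  constructor
  · rintro ⟨h1, h2⟩
    refine ⟨?_, h2⟩
    rintro v rfl
    by_contra hv
    exact h2 (h v (h1 v rfl) hv)
  · rintro ⟨h1, h2⟩
    exact ⟨Sp_mono hSS h1, h2⟩

lemma cnt_pos (S : Set (FPl K)) : 0 < cnt S := by
  unfold cnt
  have : 0 < Fintype.card (InfinitePlace K) := Fintype.card_pos
  omega

end one

section two

variable {K E : Type} [Field K] [NumberField K] [Field E] [NumberField E] [Algebra K E]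

lemma over_exists (E : Type) [Field E] [NumberField E] [Algebra K E] (v : FPl K) :
    ∃ w : FPl E, w.under (𝓞 K) = v := by
  obtain ⟨P, hP, hv⟩ := Ideal.exists_maximal_ideal_liesOver_of_isIntegral (S := 𝓞 E) v.asIdeal
  have hP0 : P ≠ ⊥ := by
    rintro rfl
    apply v.ne_bot
    rw [hv.over]
    exact Ideal.under_bot _ _
  refine ⟨⟨P, hP.isPrime, hP0⟩, ?_⟩
  ext1
  exact hv.over.symm

end two

end Pool.Agent.H23.QCF
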