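import Pool.Agent.H23.QCF.Lib
import Pool.Agent.H32.QC.TargetsL

/-!
# Row KB1: the count of the norms of `S`-units
-/

set_option autoImplicit false

open NumberField IsDedekindDomain
open Pool.Agent.H32.QC (Sol hil Iso FPl Pl ic hs sqAt HasseConic ProdFormula Prescribed)

namespace Pool.Agent.H23.QCF

/-- the squares of the group of `S`-units are the `S`-units which are squares -/
lemma range_pow_eq {K : Type} [Field K] [NumberField K] (S : Set (FPl K)) :
    (powMonoidHom 2 : US S →* US S).range = (sqs K).subgroupOf (US S) := by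
  ext x
  rw [Subgroup.mem_subgroupOf]
  constructor
  · rintro ⟨y, rfl⟩
    exact ⟨(y : Kˣ), rfl⟩
  · rintro ⟨y, hy⟩
    have hyS : y ∈ US S := by
      intro v hv
      have h1 := x.2 v hv
      rw [← hy] at h1
      simp only [powMonoidHom_apply, Units.val_pow_eq_pow_val, map_pow] at h1
      exact sq_eq_one.mp h1
    exact ⟨⟨y, hyS⟩, Subtype.ext hy⟩

theorem pf_B1 (hal : Pool.Agent.H32.QC.T_AL) (hsig : T_SIG) (h90 : T_H90) (hsu : T_SU)
    (hplc : T_PLC) (hnsy : T_NSY) (hv1 : T_VONE) (htr : T_TRANS) : T_B1 := by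
  intro K E _ _ _ _ _ t s hQ S hS htS
  obtain ⟨σ, hσs, hσσ, hσN, hσfix, hσform, hσnorm, hσsq⟩ := hsig K E t s hQ
  obtain ⟨hle, hsym, hnm⟩ := hnsy K E t s hQ S
  obtain ⟨htr1, htr2⟩ := htr K E t s hQ σ hσs
  obtain ⟨hSEf, hplc'⟩ := hplc K E t s hQ S hS.fin
  have ht0 : t ≠ 0 := by
    rintro rfl
    exact hQ.nsq ⟨0, by simp⟩
  set M := US (SE E S) with hM
  -- conjugation on `M`
  let σU : Eˣ →* Eˣ := Units.map (σ : E →* E)
  have hσU : ∀ x : Eˣ, ((σU x : Eˣ) : E) = σ x := fun x => rfl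
  have hσM : ∀ x : Eˣ, x ∈ M → σU x ∈ M := by
    intro x hx w hw
    obtain ⟨w', hw'1, hw'2⟩ := htr1 w
    rw [hσU, ← hw'2]
    refine hx w' ?_
    intro h
    apply hw
    show w.under (𝓞 K) ∈ S
    rw [← hw'1]
    exact h
  let σM : M →* M :=
    { toFun := fun x => ⟨σU x.1, hσM x.1 x.2⟩
      map_one' := Subtype.ext (map_one σU)
      map_mul' := fun x y => Subtype.ext (map_mul σU x.1 y.1) }
  have hσMv : ∀ x : M, (((σM x : M) : Eˣ) : E) = σ ((x : Eˣ) : E) := fun x => rfl
  let B : Subgroup M := MonoidHom.eqLocus σM (MonoidHom.id M)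
  have hB : ∀ x, x ∈ B ↔ σM x = x := fun x => Iff.rfl
  -- the embedding of the `S`-units of `K`
  let algU : Kˣ →* Eˣ := Units.map (algebraMap K E : K →* E)
  have halgU : ∀ x : Kˣ, ((algU x : Eˣ) : E) = algebraMap K E x := fun x => rfl
  have hι : ∀ x : Kˣ, x ∈ US S → algU x ∈ M := by
    intro x hx w hw
    rw [halgU]
    exact (hv1 K E w x).2 (hx _ hw)
  have hι' : ∀ x : Kˣ, algU x ∈ M → x ∈ US S := by
    intro x hx v hv
    obtain ⟨w, rfl⟩ := over_exists (K := K) E v
    exact (hv1 K E w x).1 (hx w hv)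
  let ι : US S →* M :=
    { toFun := fun x => ⟨algU x.1, hι x.1 x.2⟩
      map_one' := Subtype.ext (map_one algU)
      map_mul' := fun x y => Subtype.ext (map_mul algU x.1 y.1) }
  have hιv : ∀ x : US S, (((ι x : M) : Eˣ) : E) = algebraMap K E ((x : Kˣ) : K) := fun x => rfl
  have hιinj : Function.Injective ι := by
    intro x y h
    have h1 := congrArg (fun z : M => ((z : Eˣ) : E)) h
    simp only [hιv] at h1
    exact Subtype.ext (Units.ext ((algebraMap K E).injective h1))
  have hBι : B = (⊤ : Subgroup (US S)).map ι := by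
    ext x
    rw [hB]
    constructor
    · intro h
      have h1 : σ ((x : Eˣ) : E) = ((x : Eˣ) : E) := by
        rw [← hσMv, h]
      obtain ⟨y, hy⟩ := hσfix _ h1
      have hy0 : y ≠ 0 := by
        rintro rfl
        rw [map_zero] at hy
        exact (x : Eˣ).ne_zero hy.symm
      have hy2 : algU (Units.mk0 y hy0) = (x : Eˣ) := Units.ext hy
      refine ⟨⟨Units.mk0 y hy0, hι' _ ?_⟩, trivial, Subtype.ext hy2⟩
      rw [hy2]
      exact x.2
    · rintro ⟨y, -, rfl⟩
      apply Subtype.ext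
      apply Units.ext
      rw [hσMv, hιv]
      exact σ.commutes _
  have hB2ι : B.map (powMonoidHom 2) = (powMonoidHom 2 : US S →* US S).range.map ι := by
    rw [hBι, MonoidHom.range_eq_map, Subgroup.map_map, Subgroup.map_map]
    congr 1
    ext x
    simp
  have hBcount : (B.map (powMonoidHom 2)).relIndex B = 2 ^ cnt S := by
    rw [hB2ι, hBι, Subgroup.relIndex_map_map_of_injective _ _ hιinj, Subgroup.relIndex_top_right,
      range_pow_eq]
    exact hsu K S hS.fin
  have hMcount : (powMonoidHom 2 : M →* M).range.index = 2 ^ cnt (SE E S) := by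
    rw [range_pow_eq]
    exact hsu E (SE E S) hSEf
  have hinv : ∀ x, σM (σM x) = x := by
    intro x
    apply Subtype.ext
    apply Units.ext
    rw [hσMv, hσMv, hσσ]
  have h90' : ∀ x, x * σM x = 1 → ∃ y, x = y / σM y := by
    intro x hx
    have h1 : ((x : Eˣ) : E) * σ ((x : Eˣ) : E) = 1 := by
      exact congrArg (fun z : M => ((z : Eˣ) : E)) hx
    obtain ⟨y, hyM, hy⟩ := h90 K E t s hQ σ hσs S hS htS (x : Eˣ) x.2 h1
    refine ⟨⟨y, hyM⟩, ?_⟩
    rw [eq_div_iff_mul_eq']
    apply Subtype.ext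
    apply Units.ext
    show ((x : Eˣ) : E) * σ (y : E) = y
    exact hy
  -- Kummer theory
  have hsM : ∀ hs0 : s ≠ 0, Units.mk0 s hs0 ∈ M := by
    intro hs0 w hw
    have h1 : w.valuation E (algebraMap K E t) = 1 := (hv1 K E w t).2 (htS _ hw)
    rw [← hQ.sq, map_pow] at h1
    exact sq_eq_one.mp h1
  have hs0 : s ≠ 0 := by
    rintro rfl
    have h1 := hQ.sq
    rw [zero_pow two_ne_zero] at h1
    exact ht0 ((algebraMap K E).injective (by rw [← h1, map_zero]))
  have hsqU : ∀ (x : US S), IsSquare ((x : Kˣ) : K) → x ∈ (powMonoidHom 2 : US S →* US S).range := by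
    intro x hx
    rw [range_pow_eq, Subgroup.mem_subgroupOf, mem_sqs]
    exact hx
  have hsqU' : ∀ (x : US S), x ∈ (powMonoidHom 2 : US S →* US S).range → IsSquare ((x : Kˣ) : K) := by
    intro x hx
    rw [range_pow_eq, Subgroup.mem_subgroupOf, mem_sqs] at hx
    exact hx
  let tU : US S := ⟨Units.mk0 t ht0, fun v hv => htS v hv⟩
  have hKum : (B.map (powMonoidHom 2)).relIndex (B ⊓ (powMonoidHom 2 : M →* M).range) = 2 := by
    rw [Subgroup.relIndex_eq_two_iff]
    have hmem : ∀ x : US S, ι x ∈ B.map (powMonoidHom 2) ↔ IsSquare ((x : Kˣ) : K) := by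
      intro x
      rw [hB2ι]
      constructor
      · rintro ⟨y, hy, hyx⟩
        rw [← hιinj hyx]
        exact hsqU' y hy
      · intro h
        exact ⟨x, hsqU x h, rfl⟩
    refine ⟨ι tU, ⟨?_, ?_⟩, ?_⟩
    · rw [SetLike.mem_coe, hBι]
      exact ⟨tU, trivial, rfl⟩
    · refine ⟨⟨Units.mk0 s hs0, hsM hs0⟩, ?_⟩
      apply Subtype.ext
      apply Units.ext
      show s ^ 2 = algebraMap K E t
      exact hQ.sq
    · rintro b ⟨hb1, hb2⟩
      rw [SetLike.mem_coe, hBι] at hb1
      obtain ⟨x, -, rfl⟩ := hb1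
      obtain ⟨y, hy⟩ := hb2
      have hsq : IsSquare (algebraMap K E ((x : Kˣ) : K)) := by
        refine ⟨((y : Eˣ) : E), ?_⟩
        have h1 := congrArg (fun z : M => ((z : Eˣ) : E)) hy
        rw [← hιv, ← h1]
        simp [pow_two]
      have hmul : ι x * ι tU = ι (x * tU) := (map_mul ι x tU).symm
      rw [hmul, hmem, hmem]
      have hv : ((((x * tU : US S) : Kˣ)) : K) = ((x : Kˣ) : K) * t := rfl
      rw [hv]
      rcases hσsq _ hsq with h | h
      · refine Or.inr ⟨h, fun h' => hQ.nsq ?_⟩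
        have hx0 : ((x : Kˣ) : K) ≠ 0 := (x : Kˣ).ne_zero
        have := h'.div h
        rwa [mul_div_cancel_left₀ _ hx0] at this
      · refine Or.inl ⟨h, fun h' => hQ.nsq ?_⟩
        have hx0 : ((x : Kˣ) : K) ≠ 0 := (x : Kˣ).ne_zero
        have := h.div h'
        rwa [mul_div_cancel_left₀ _ hx0] at this
  have key := hal M σM hinv h90' B hB (by rw [hMcount]; positivity)
    (by rw [hBcount]; positivity) hKum
  rw [hMcount, hBcount] at key
  -- the norm group
  have hνmem : ∀ y : Eˣ, y ∈ M → nrm K E y ∈ US S := fun y hy => hle ⟨y, hy, rfl⟩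
  let ν : M →* US S :=
    { toFun := fun y => ⟨nrm K E y.1, hνmem y.1 y.2⟩
      map_one' := Subtype.ext (map_one (nrm K E))
      map_mul' := fun x y => Subtype.ext (map_mul (nrm K E) x.1 y.1) }
  have hιν : (MonoidHom.id M * σM : M →* M) = ι.comp ν := by
    ext y
    show ((y : Eˣ) : E) * σ ((y : Eˣ) : E) = algebraMap K E (Algebra.norm K ((y : Eˣ) : E))
    exact (hσN _).symm
  have hNcount : ((MonoidHom.id M * σM : M →* M).range).relIndex B =
      ((US (SE E S)).map (nrm K E)).relIndex (US S) := by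
    rw [hιν, MonoidHom.range_comp, hBι, Subgroup.relIndex_map_map_of_injective _ _ hιinj,
      Subgroup.relIndex_top_right, Subgroup.relIndex]
    congr 1
    ext x
    rw [Subgroup.mem_subgroupOf]
    constructor
    · rintro ⟨y, rfl⟩
      exact ⟨y.1, y.2, rfl⟩
    · rintro ⟨y, hy, hyx⟩
      exact ⟨⟨y, hy⟩, Subtype.ext hyx⟩
  rw [hNcount] at key
  set r := ((US (SE E S)).map (nrm K E)).relIndex (US S) with hr
  constructor
  · intro h0
    rw [h0, mul_zero] at key
    have : 0 < (2 ^ cnt S) ^ 2 := by positivity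
    omega
  · have h1 : 2 ^ cnt (SE E S) * (2 * r) ≤ 2 ^ cnt (SE E S) * 2 ^ (NS S t).ncard := by
      rw [← pow_add]
      calc 2 ^ cnt (SE E S) * (2 * r) = (2 ^ cnt S) ^ 2 := by rw [← key]; ring
        _ = 2 ^ (2 * cnt S) := by rw [← pow_mul, mul_comm]
        _ ≤ _ := Nat.pow_le_pow_right (by norm_num) hplc'
    exact Nat.le_of_mul_le_mul_left h1 (by positivity)

end Pool.Agent.H23.QCF
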