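import Pool.Agent.H23.QCF.Lib

/-!
# Rows KB2 and KB3: the first inequality and nonsplit places
-/

set_option autoImplicit false

open NumberField IsDedekindDomain
open Pool.Agent.H32.QC (Sol hil Iso FPl Pl ic hs sqAt HasseConic ProdFormula Prescribed)

namespace Pool.Agent.H23.QCF

lemma chi_val {K : Type} [Field K] [NumberField K] {p : Pl K} {t : K} {χ : Kˣ →* ℤˣ}
    (hχ : ∀ a : Kˣ, ((χ a : ℤˣ) : ℤ) = hs p (a : K) t) (u : Kˣ) :
    (χ u = -1 ↔ hs p (u : K) t = -1) ∧ (χ u = 1 ↔ hs p (u : K) t = 1) := by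
  constructor
  · constructor
    · intro h
      rw [← hχ u, h]
      rfl
    · intro h
      ext
      rw [hχ u, h]
      rfl
  · constructor
    · intro h
      rw [← hχ u, h]
      rfl
    · intro h
      ext
      rw [hχ u, h]
      rfl

/-- the product of signs and the parity of the number of minus signs -/
lemma prod_sign {ι : Type} (T : Finset ι) (f : ι → ℤˣ) :
    ∏ i ∈ T, f i = 1 ↔ Even ({i | i ∈ T ∧ f i = -1}.ncard) := by
  classical
  have h1 : {i | i ∈ T ∧ f i = -1} = ((T.filter fun i => f i = -1 : Finset ι) : Set ι) := by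
    ext i
    simp
  rw [h1, Set.ncard_coe_finset]
  have h2 : ∏ i ∈ T, f i = (-1) ^ (T.filter fun i => f i = -1).card := by
    rw [← Finset.prod_const, Finset.prod_filter]
    refine Finset.prod_congr rfl fun i _ => ?_
    split_ifs with h
    · exact h
    · rcases Int.units_eq_one_or (f i) with h' | h'
      · exact h'
      · exact absurd h' h
  rw [h2]
  constructor
  · intro h
    by_contra hodd
    rw [Nat.not_even_iff_odd] at hodd
    rw [hodd.neg_one_pow] at h
    exact absurd h (by decide)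
  · intro h
    exact h.neg_one_pow

theorem pf_B2 (h1 : T_B1) (h2 : T_NSY) (h3 : T_CHI) (h4 : T_LIN) (h5 : T_EXT) : T_B2 := by
  classical
  intro K _ _ S hS t ht hsq
  obtain ⟨E, _, _, _, s, hQ⟩ := h5 K t hsq
  choose χ hχ hχ2 using fun p : Pl K => h3 K p t t.ne_zero
  have hf := NS_fin hS.fin (t : K)
  have : Fintype (NS S (t : K)) := hf.fintype
  obtain ⟨hle, hsym, -⟩ := h2 K E t s hQ S
  obtain ⟨hne, hcount⟩ := h1 K E t s hQ S hS (fun v hv => ht v hv)
  have hcard : Fintype.card (NS S (t : K)) = (NS S (t : K)).ncard := by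
    rw [Set.ncard_eq_toFinset_card' (NS S (t : K)), Set.toFinset_card]
  have hker : (US (SE E S)).map (nrm K E) ≤ ⨅ i : NS S (t : K), (χ i.1).ker := by
    rintro x ⟨y, -, rfl⟩
    simp only [Subgroup.mem_iInf, MonoidHom.mem_ker]
    intro i
    exact (chi_val (hχ i.1) _).2.2 (hsym y i.1)
  obtain ⟨T, hT, hTU⟩ := h4 Kˣ (NS S (t : K)) (fun i => χ i.1) (US S) (by
    rw [hcard]
    refine le_trans (Nat.mul_le_mul_left 2 ?_) hcount
    exact Subgroup.relIndex_le_of_le_left hker hne)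
  refine ⟨Subtype.val '' (T : Set (NS S (t : K))), ?_, ?_, ?_⟩
  · rintro _ ⟨p, -, rfl⟩
    exact p.2
  · obtain ⟨p, hp⟩ := hT
    exact ⟨p.1, p, hp, rfl⟩
  · intro u hu
    have h6 := (prod_sign T (fun i => χ i.1 u)).1 (hTU u hu)
    have h7 : {p | p ∈ Subtype.val '' (T : Set (NS S (t : K))) ∧ hs p (u : K) (t : K) = -1} =
        Subtype.val '' {i : NS S (t : K) | i ∈ T ∧ χ i.1 u = -1} := by
      ext p
      constructor
      · rintro ⟨⟨q, hq, rfl⟩, hq2⟩
        exact ⟨q, ⟨hq, (chi_val (hχ q.1) u).1.2 hq2⟩, rfl⟩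
      · rintro ⟨q, ⟨hq, hq2⟩, rfl⟩
        exact ⟨⟨q, hq, rfl⟩, (chi_val (hχ q.1) u).1.1 hq2⟩
    rw [h7, Set.ncard_image_of_injective _ Subtype.val_injective]
    exact h6

theorem pf_B3 (h2 : T_B2) (hwa : T_WA) (hnd : T_HND) (hg : T_GOOD) (hchi : T_CHI) : T_B3 := by
  classical
  intro K _ _ t htsq A hA
  by_contra hcon
  push Not at hcon
  have ht0 : t ≠ 0 := by
    rintro rfl
    exact htsq ⟨0, by simp⟩
  obtain ⟨S, hAS, hS⟩ := hg K (A ∪ {v | v.valuation K t ≠ 1}) (hA.union (supp_fin ht0))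
  have htS : ∀ v, v ∉ S → v.valuation K t = 1 := fun v hv => by
    by_contra h
    exact hv (hAS (Or.inr h))
  have hsplit : ∀ v, v ∉ S → sqAt (Sum.inl v) t := fun v hv => hcon v (fun h => hv (hAS (Or.inl h)))
  -- one set `T` for all units
  obtain ⟨T, hTS, hTne, hT⟩ : ∃ T : Set (Pl K), T ⊆ NS S t ∧ T.Nonempty ∧
      ∀ u : Kˣ, Even ({p | p ∈ T ∧ hs p (u : K) t = -1}.ncard) := by
    by_contra hno
    push Not at hno
    have hno' : ∀ T : Set (Pl K), ∃ u : Kˣ, T ⊆ NS S t → T.Nonempty →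
        ¬ Even ({p | p ∈ T ∧ hs p (u : K) t = -1}.ncard) := by
      intro T
      by_cases h : T ⊆ NS S t ∧ T.Nonempty
      · obtain ⟨u, hu⟩ := hno T h.1 h.2
        exact ⟨u, fun _ _ => hu⟩
      · exact ⟨1, fun h1 h2 => absurd ⟨h1, h2⟩ h⟩
    choose u hu using hno'
    have hfin : (𝒫 (NS S t)).Finite := (NS_fin hS.fin t).finite_subsets
    let S2 : Set (FPl K) := S ∪ ⋃ T ∈ 𝒫 (NS S t), {v | v.valuation K (u T : K) ≠ 1}
    have hS2f : S2.Finite := hS.fin.union (hfin.biUnion fun T _ => supp_fin (u T).ne_zero)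
    have hS2 : Good S2 := hS.mono Set.subset_union_left hS2f
    obtain ⟨T, hT1, hT2, hT3⟩ := h2 K S2 hS2 (Units.mk0 t ht0)
      (fun v hv => htS v (fun h => hv (Or.inl h))) htsq
    have hNS : NS S2 t = NS S t := NS_eq Set.subset_union_left fun v _ hv => hsplit v hv
    have hT1' : T ⊆ NS S t := by
      rw [← hNS]
      exact hT1
    refine hu T hT1' hT2 (hT3 (u T) ?_)
    intro v hv
    by_contra h
    exact hv (Or.inr (Set.mem_biUnion (show T ∈ 𝒫 (NS S t) from hT1') h))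
  obtain ⟨p, hp⟩ := hTne
  have hTf : T.Finite := (NS_fin hS.fin t).subset hTS
  obtain ⟨a, ha0, ha⟩ := hnd K p t ht0 (hTS hp).2
  obtain ⟨y, hy⟩ := hwa K T hTf (fun q => if q = p then (Units.mk0 a ha0)⁻¹ else 1)
  have hset : {q | q ∈ T ∧ hs q (y : K) t = -1} = {p} := by
    ext q
    constructor
    · rintro ⟨hq, hq2⟩
      by_contra hqp
      obtain ⟨χ, hχ, hχ2⟩ := hchi K q t ht0
      have h3 := hχ2 _ (hy q hq)
      have hqp' : q ≠ p := fun h => hqp h
      rw [if_neg hqp', mul_one] at h3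
      rw [(chi_val hχ y).2] at h3
      rw [h3] at hq2
      exact absurd hq2 (by norm_num)
    · rintro rfl
      refine ⟨hp, ?_⟩
      obtain ⟨χ, hχ, hχ2⟩ := hchi K q t ht0
      have h3 := hχ2 _ (hy q hp)
      rw [if_pos rfl, map_mul, map_inv, mul_inv_eq_one] at h3
      rw [← (chi_val hχ y).1, h3, (chi_val hχ _).1]
      exact ha
  have := hT y
  rw [hset, Set.ncard_singleton] at this
  exact absurd this (by decide)

end Pool.Agent.H23.QCF
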