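import Pool.Agent.H23.QCF.Lib

/-!
# Rows KB4I and KB6B
-/

set_option autoImplicit false

open NumberField IsDedekindDomain
open Pool.Agent.H32.QC (Sol hil Iso FPl Pl ic hs sqAt HasseConic ProdFormula Prescribed)

namespace Pool.Agent.H23.QCF

theorem pf_B4I (h4 : T_B4) (hcnt : T_CNT) (hsu : T_SU) : T_B4I := by
  intro K _ _ S hS t ht hsq
  obtain ⟨S', hSS, hS', hc, hsp, hu⟩ := h4 K S hS t ht hsq
  refine ⟨S', hSS, hS', hsp, ?_⟩
  have h1 : (SQS (Sp S)).relIndex (US S') = 2 ^ cnt S' := by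
    rw [← hsu K S' hS'.fin, ← Subgroup.inf_relIndex_right (SQS (Sp S)),
      ← Subgroup.inf_relIndex_right (sqs K)]
    congr 1
    apply le_antisymm
    · rintro x ⟨hx1, hx2⟩
      exact ⟨hu x hx2 hx1, hx2⟩
    · rintro x ⟨hx1, hx2⟩
      exact ⟨sqs_le_SQS _ hx1, hx2⟩
  have h2 := Subgroup.relIndex_mul_index (le_sup_right : SQS (Sp S) ≤ US S' ⊔ SQS (Sp S))
  rw [Subgroup.relIndex_sup_right, h1, hcnt K S hS.fin hS.dy] at h2
  have h3 : (4 : ℕ) ^ cnt S = 2 ^ cnt S' * 2 := by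
    rw [← pow_succ, hc, pow_mul]
    norm_num
  rw [h3] at h2
  exact Nat.eq_of_mul_eq_mul_left (by positivity) h2

theorem pf_B6B (h2 : T_B2) (hune : T_UNE) (hunr : T_UNR) : T_B6B := by
  classical
  intro K _ _ S hS t ht hsq
  by_contra hcon
  push Not at hcon
  have hu' : ∀ p : Pl K, ∃ u : Kˣ, p ∈ NS S (t : K) → PP (u : K) (t : K) = {p} := by
    intro p
    by_cases hp : p ∈ NS S (t : K)
    · obtain ⟨u, hu⟩ := hcon p hp
      exact ⟨u, fun _ => hu⟩
    · exact ⟨1, fun h => absurd h hp⟩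
  choose u hu using hu'
  let S2 : Set (FPl K) := S ∪ ⋃ p ∈ NS S (t : K), {v | v.valuation K (u p : K) ≠ 1}
  have hS2f : S2.Finite := hS.fin.union ((NS_fin hS.fin _).biUnion fun p _ =>
    supp_fin (u p).ne_zero)
  have hS2 : Good S2 := hS.mono Set.subset_union_left hS2f
  obtain ⟨T, hT1, ⟨p, hp⟩, hT3⟩ := h2 K S2 hS2 t (US_mono Set.subset_union_left ht) hsq
  have hNST : ∀ q, q ∈ T → q ∉ NS S (t : K) := by
    intro q hq hqN
    have h4 := hT3 (u q) (by
      intro v hv
      by_contra h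
      exact hv (Or.inr (Set.mem_biUnion hqN h)))
    have h5 : {p | p ∈ T ∧ hs p (u q : K) (t : K) = -1} = {q} := by
      ext p'
      constructor
      · rintro ⟨-, h6⟩
        have h7 : p' ∈ PP (u q : K) (t : K) := h6
        rwa [hu q hqN] at h7
      · rintro rfl
        refine ⟨hq, ?_⟩
        have h7 : p' ∈ PP (u p' : K) (t : K) := by
          rw [hu p' hqN]
          rfl
        exact h7
    rw [h5, Set.ncard_singleton] at h4
    exact absurd h4 (by decide)
  have hout : ∀ q, q ∈ T → ∃ v, q = Sum.inl v ∧ v ∉ S := by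
    intro q hq
    by_contra hno
    push Not at hno
    exact hNST q hq ⟨fun v hv => hno v hv, (hT1 hq).2⟩
  obtain ⟨v, rfl, hvS⟩ := hout p hp
  obtain ⟨π, hπ1, hπ2⟩ := hS.pr v hvS
  have hvS2 : v ∈ S2 := (hT1 hp).1 v rfl
  have h4 := hT3 π (by
    intro v' hv'
    refine hπ2 v' (fun h => hv' (Or.inl h)) ?_
    rintro rfl
    exact hv' hvS2)
  have h5 : {p | p ∈ T ∧ hs p (π : K) (t : K) = -1} = {Sum.inl v} := by
    ext q
    constructor
    · rintro ⟨hq, h6⟩
      obtain ⟨v', rfl, hv'⟩ := hout q hq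
      by_contra hne
      have hne' : v' ≠ v := fun h => hne (by rw [h]; rfl)
      have h7 := hune K v' (π : K) (t : K) 0 0 (hS.dy v' hv')
        (by rw [WithZero.exp_zero]; exact hπ2 v' hv' hne')
        (by rw [WithZero.exp_zero]; exact ht v' hv') (by simp) (by simp)
      rw [h7] at h6
      exact absurd h6 (by norm_num)
    · rintro rfl
      refine ⟨hp, ?_⟩
      exact hunr K v (π : K) (t : K) (-1) 0 (hS.dy v hvS) hπ1
        (by rw [WithZero.exp_zero]; exact ht v hvS) (by decide) (by simp) (hT1 hp).2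
  rw [h5, Set.ncard_singleton] at h4
  exact absurd h4 (by decide)

end Pool.Agent.H23.QCF
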