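import Pool.Agent.H23.QCF.Lib

/-!
# Row KB5: the norm theorem
-/

set_option autoImplicit false

open NumberField IsDedekindDomain
open Pool.Agent.H32.QC (Sol hil Iso FPl Pl ic hs sqAt HasseConic ProdFormula Prescribed)

namespace Pool.Agent.H23.QCF

/-- the common kernel of the symbols with `t` at the places of `NS S t` has index `2 ^ m` -/
lemma chi_family (hchi : T_CHI) (hnd : T_HND) (hwa : T_WA) (hlix : T_LIX)
    {K : Type} [Field K] [NumberField K] (S : Set (FPl K)) (hS : S.Finite) (t : K) (ht : t ≠ 0) :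
    ∃ Nl : Subgroup Kˣ, Nl.index = 2 ^ (NS S t).ncard ∧
      ∀ a : Kˣ, a ∈ Nl ↔ ∀ p, p ∈ NS S t → hs p (a : K) t = 1 := by
  classical
  choose χ hχ hχ2 using fun p : Pl K => hchi K p t ht
  have hf := NS_fin hS t
  have : Fintype (NS S t) := hf.fintype
  refine ⟨⨅ i : NS S t, (χ i.1).ker, ?_, ?_⟩
  · rw [hlix Kˣ (NS S t) (fun i => χ i.1) ?_]
    · congr 1
      rw [Set.ncard_eq_toFinset_card' (NS S t), Set.toFinset_card]
    · rintro ⟨p, hp⟩
      obtain ⟨a, ha0, ha⟩ := hnd K p t ht hp.2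
      obtain ⟨y, hy⟩ := hwa K (NS S t) hf (fun q => if q = p then (Units.mk0 a ha0)⁻¹ else 1)
      refine ⟨y, ?_, ?_⟩
      · have h1 := hχ2 p _ (hy p hp)
        simp only [if_true] at h1
        rw [map_mul, map_inv, mul_inv_eq_one] at h1
        show χ p y = -1
        rw [h1]
        ext
        rw [hχ p]
        simpa using ha
      · rintro ⟨q, hq⟩ hne
        have hqp : q ≠ p := fun h => hne (by simp [h])
        have h1 := hχ2 q _ (hy q hq)
        simpa [hqp] using h1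
  · intro a
    simp only [Subgroup.mem_iInf, MonoidHom.mem_ker, Subtype.forall]
    constructor
    · intro h p hp
      rw [← hχ p a, h p hp]
      rfl
    · intro h p hp
      ext
      rw [hχ p a, h p hp]
      rfl

theorem pf_B5 (h4 : T_B4I) (h1 : T_B1) (hnsy : T_NSY) (hchi : T_CHI) (hnd : T_HND)
    (hwa : T_WA) (hlix : T_LIX) (hg : T_GOOD) (hext : T_EXT) : T_B5 := by
  intro K _ _ a b ha hb hall
  by_cases hbs : IsSquare b
  · obtain ⟨c, rfl⟩ := hbs
    exact ⟨0, 1, c, Or.inr (Or.inl one_ne_zero), by ring⟩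
  obtain ⟨S, hAS, hS⟩ := hg K ({v | v.valuation K a ≠ 1} ∪ {v | v.valuation K b ≠ 1})
    ((supp_fin ha).union (supp_fin hb))
  have haS : ∀ v, v ∉ S → v.valuation K a = 1 := fun v hv => by
    by_contra h
    exact hv (hAS (Or.inl h))
  have hbS : ∀ v, v ∉ S → v.valuation K b = 1 := fun v hv => by
    by_contra h
    exact hv (hAS (Or.inr h))
  obtain ⟨S', hSS, hS', hsp, hidx⟩ := h4 K S hS (Units.mk0 b hb) (fun v hv => hbS v hv) hbs
  have hsp' : ∀ v, v ∈ S' → v ∉ S → sqAt (Sum.inl v) b := fun v hv hv' => hsp v hv hv'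
  have hNS := NS_eq hSS hsp'
  obtain ⟨E, _, _, _, s, hQ⟩ := hext K b hbs
  obtain ⟨Nl, hNl, hNlm⟩ := chi_family hchi hnd hwa hlix S hS.fin b hb
  obtain ⟨hle, hsym, hnm⟩ := hnsy K E b s hQ S'
  obtain ⟨hne, hcount⟩ := h1 K E b s hQ S' hS' (fun v hv => hbS v (fun h => hv (hSS h)))
  set U := US S' with hU
  set NM := (US (SE E S')).map (nrm K E) with hNM
  rw [hNS] at hcount
  set m := (NS S b).ncard with hm
  -- squares at all places of `S` lie in `Nl`
  have hsqN : SQS (Sp S) ≤ Nl := by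
    intro x hx
    rw [hNlm]
    intro p hp
    obtain ⟨χ, hχ, hχ2⟩ := hchi K p b hb
    rw [← hχ x, hχ2 x (mem_SQS.1 hx p hp.1)]
    rfl
  have hd : (U ⊔ Nl).index ∣ 2 := by
    rw [← hidx]
    exact Subgroup.index_dvd_of_le (sup_le_sup_left hsqN U)
  have hd2 : (U ⊔ Nl).index ≤ 2 := Nat.le_of_dvd (by norm_num) hd
  have hmul : Nl.relIndex U * (U ⊔ Nl).index = 2 ^ m := by
    rw [← hNl, ← Subgroup.relIndex_mul_index (le_sup_right : Nl ≤ U ⊔ Nl),
      Subgroup.relIndex_sup_right]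
  have hbig : 2 ^ m ≤ 2 * Nl.relIndex U := by
    rw [← hmul, mul_comm 2]
    exact Nat.mul_le_mul_left _ hd2
  have hNMN : NM ≤ Nl ⊓ U := by
    refine le_inf ?_ hle
    rintro x ⟨y, -, rfl⟩
    rw [hNlm]
    exact fun p _ => hsym y p
  have hrel := Subgroup.relIndex_mul_relIndex NM (Nl ⊓ U) U hNMN inf_le_right
  rw [Subgroup.inf_relIndex_right] at hrel
  have hlt : NM.relIndex U ≤ Nl.relIndex U := by omega
  have hx0 : Nl.relIndex U ≠ 0 := by
    intro h0
    rw [h0, mul_zero] at hrel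
    exact hne hrel.symm
  have hone : NM.relIndex (Nl ⊓ U) = 1 := by
    have h3 : NM.relIndex (Nl ⊓ U) * Nl.relIndex U ≤ 1 * Nl.relIndex U := by
      rw [hrel, one_mul]
      exact hlt
    have h4' : NM.relIndex (Nl ⊓ U) ≤ 1 := Nat.le_of_mul_le_mul_right h3 (Nat.pos_of_ne_zero hx0)
    have h5 : NM.relIndex (Nl ⊓ U) ≠ 0 := by
      intro h0
      rw [h0, zero_mul] at hrel
      exact hne hrel.symm
    omega
  rw [Subgroup.relIndex_eq_one] at hone
  have haM : Units.mk0 a ha ∈ NM := by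
    apply hone
    refine Subgroup.mem_inf.2 ⟨?_, ?_⟩
    · rw [hNlm]
      exact fun p _ => hall p
    · exact fun v hv => haS v (fun h => hv (hSS h))
  obtain ⟨x, -, hx⟩ := haM
  refine (hnm a ha).2 ⟨(x : E), ?_⟩
  have := congrArg (Units.val) hx
  simpa [nrm] using this

end Pool.Agent.H23.QCF
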