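import Pool.Agent.H23.QCF.Lib

/-!
# Row KH90: Hilbert's theorem 90 for `S`-units
-/

set_option autoImplicit false

open NumberField IsDedekindDomain
open Pool.Agent.H32.QC (Sol hil Iso FPl Pl ic hs sqAt HasseConic ProdFormula Prescribed)

namespace Pool.Agent.H23.QCF

theorem pf_H90 (htr : T_TRANS) (huv : T_UNV) : T_H90 := by
  classical
  intro K E _ _ _ _ _ t s hQ σ hσs S hS htS x hx hxσ
  obtain ⟨htr1, htr2⟩ := htr K E t s hQ σ hσs
  have hs0 : s ≠ 0 := by
    rintro rfl
    have h1 := hQ.sq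
    rw [zero_pow two_ne_zero] at h1
    apply hQ.nsq
    rw [(map_eq_zero (algebraMap K E)).1 h1.symm]
    exact ⟨0, by simp⟩
  obtain ⟨y0, hy0, hy0x⟩ : ∃ y0 : E, y0 ≠ 0 ∧ (x : E) * σ y0 = y0 := by
    by_cases h : (x : E) = -1
    · refine ⟨s, hs0, ?_⟩
      rw [h, hσs]
      ring
    · refine ⟨1 + x, ?_, ?_⟩
      · intro h'
        apply h
        linear_combination h'
      · rw [map_add, map_one]
        linear_combination hxσ
  have hwσ : ∀ w, w ∉ SE E S → w.valuation E (σ y0) = w.valuation E y0 := by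
    intro w hw
    have h1 := congrArg (w.valuation E) hy0x
    rwa [map_mul, hx w hw, one_mul] at h1
  choose W hW using fun v : FPl K => over_exists (K := K) E v
  have hsame : ∀ w : FPl E, w ∉ SE E S →
      w.valuation E y0 = (W (w.under (𝓞 K))).valuation E y0 := by
    intro w hw
    have hWn : W (w.under (𝓞 K)) ∉ SE E S := by
      intro h
      apply hw
      have h2 : (W (w.under (𝓞 K))).under (𝓞 K) ∈ S := h
      rw [hW] at h2
      exact h2
    rcases htr2 (W (w.under (𝓞 K))) w (hW _).symm with h | h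
    · rw [← h]
    · rw [h y0, hwσ _ hWn]
  choose n hn using fun v : FPl K => exp_val (W v) hy0
  let A0 : Set (FPl K) := {v | v ∉ S ∧ n v ≠ 0}
  have hA0 : A0.Finite := by
    refine ((supp_fin hy0).image (fun w : FPl E => w.under (𝓞 K))).subset ?_
    rintro v ⟨-, hv⟩
    refine ⟨W v, ?_, hW v⟩
    show (W v).valuation E y0 ≠ 1
    rw [hn v]
    intro h
    apply hv
    rw [← WithZero.exp_zero] at h
    exact WithZero.exp_injective h
  obtain ⟨A, hA⟩ : ∃ A : Finset (FPl K), ∀ v, v ∈ A ↔ v ∉ S ∧ n v ≠ 0 :=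
    ⟨hA0.toFinset, fun v => by simp [A0]⟩
  have hpr : ∀ v : FPl K, ∃ π : Kˣ, v ∉ S → v.valuation K (π : K) = WithZero.exp (-1 : ℤ) ∧
      ∀ v', v' ∉ S → v' ≠ v → v'.valuation K (π : K) = 1 := by
    intro v
    by_cases hv : v ∈ S
    · exact ⟨1, fun h => absurd hv h⟩
    · obtain ⟨π, hπ⟩ := hS.pr v hv
      exact ⟨π, fun _ => hπ⟩
  choose π hπ using hpr
  let b : Kˣ := ∏ v ∈ A, (π v) ^ (-(n v))
  have hb : ∀ v, v ∉ S → v.valuation K (b : K) = WithZero.exp (n v) := by
    intro v hv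
    have h1 : v.valuation K (b : K) = ∏ v' ∈ A, v.valuation K ((π v' : K) ^ (-(n v'))) := by
      rw [← map_prod]
      congr 1
      simp [b]
    rw [h1]
    by_cases hvA : v ∈ A
    · rw [Finset.prod_eq_single_of_mem v hvA]
      · rw [map_zpow₀, (hπ v hv).1, ← WithZero.exp_zsmul]
        congr 1
        simp
      · intro v' hv' hne
        rw [map_zpow₀, (hπ v' ((hA v').1 hv').1).2 v hv (Ne.symm hne), one_zpow]
    · rw [Finset.prod_eq_one]
      · have h0 : n v = 0 := by
          by_contra h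
          exact hvA ((hA v).2 ⟨hv, h⟩)
        rw [h0, WithZero.exp_zero]
      · intro v' hv'
        have hne : v ≠ v' := by
          rintro rfl
          exact hvA hv'
        rw [map_zpow₀, (hπ v' ((hA v').1 hv').1).2 v hv hne, one_zpow]
  have hb0 : algebraMap K E (b : K) ≠ 0 := by
    rw [Ne, map_eq_zero]
    exact b.ne_zero
  refine ⟨Units.mk0 (y0 / algebraMap K E (b : K)) (div_ne_zero hy0 hb0), ?_, ?_⟩
  · intro w hw
    have hvS : w.under (𝓞 K) ∉ S := hw
    rw [Units.val_mk0, map_div₀, huv K E t s hQ w (hS.dy _ hvS) (htS _ hvS), hb _ hvS,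
      hsame w hw, hn, div_self]
    exact WithZero.exp_ne_zero
  · rw [Units.val_mk0, map_div₀, AlgEquiv.commutes, ← mul_div_assoc, hy0x]

end Pool.Agent.H23.QCF
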