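import Pool.Agent.H23.QCF.LocalAll
import Pool.Agent.H12.QC.SCNT
import Pool.Agent.H12.QC.FUN
import Pool.Agent.H12.QC.SPLC
import Pool.Agent.H12.QC.SSU
import Pool.Agent.H13.QCF.KB6C
import Pool.Agent.H16.QCF.KB6A
import Pool.Agent.H16.QCF.KISO
import Pool.Agent.H16.QCF.KSLOT
import Pool.Agent.H23.QCF.KB1
import Pool.Agent.H23.QCF.KB2
import Pool.Agent.H23.QCF.KB4I
import Pool.Agent.H23.QCF.KB5
import Pool.Agent.H23.QCF.KH90
import Pool.Agent.H36.QCF.KPFIN
import Pool.Agent.H38.QC.SR1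
import Pool.Agent.H38.QCF.KDET
import Pool.Agent.H38.QCF.KSIG
import Pool.Agent.H50.QCF.KEXT
import Pool.Agent.H50.QCF.KGLUE
import Pool.Agent.H60.QCF.KPRE
import Pool.Agent.H62.QC.SGOOD
import Pool.Agent.H62.QC.SP2
import Pool.Agent.H69.QCF.KCHI
import Pool.Agent.H78.QCF.KBAS
import Pool.Agent.H78.QCF.KLIX
import Pool.Agent.H81.QCF.KLSL
import Pool.Agent.H81.QCF.KNSY
import Pool.Agent.H93.QC.STRANS
import Pool.Agent.H93.QC.SPI
import Pool.Agent.H93.QC.STWO
import Pool.Agent.H93.QC.SUNV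
import Pool.Agent.H97.QCF.KODD
import Pool.Agent.H99.QCF.KB6D
import Pool.Agent.H99.QCF.KB6E
import Pool.Agent.H99.QCF.KB4
import Pool.Agent.H19.QCF.KPF
import Pool.Agent.H19.QC.SPF
import Pool.Agent.H19.QC.SWA
import Pool.Agent.H49.QC.SIN

/-!
# Quadratic class field theory over number fields, assembled
-/

set_option autoImplicit false

open NumberField IsDedekindDomain
open Pool.Agent.H32.QC (Sol hil Iso FPl Pl ic hs sqAt HasseConic ProdFormula Prescribed)

namespace Pool.Agent.H23.QCF.All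

theorem hmul : T_HMUL := Pool.Agent.H50.QCF.pf_HMUL LA.pbm LA.psg
theorem hnd : T_HND := Pool.Agent.H50.QCF.pf_HND LA.pnd
theorem hsq : T_HSQ := Pool.Agent.H50.QCF.pf_HSQ
theorem hsym : T_HSYM := Pool.Agent.H50.QCF.pf_HSYM
theorem nsq : T_NSQ := Pool.Agent.H50.QCF.pf_NSQ
theorem une : T_UNE := Pool.Agent.H97.QCF.pf_UNE LA.odd LA.psg
theorem unr : T_UNR := Pool.Agent.H97.QCF.pf_UNR LA.odd LA.psg
theorem uus : T_UUS := Pool.Agent.H97.QCF.pf_UUS LA.odd LA.psg LA.pbm LA.pnd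
theorem chi : T_CHI := Pool.Agent.H69.QCF.pf_CHI hmul hsq hsym
theorem ext : T_EXT := Pool.Agent.H50.QCF.pf_EXT
theorem sig : T_SIG := Pool.Agent.H38.QCF.pf_SIG
theorem su : T_SU := Pool.Agent.H12.QC.pf_SSU
theorem good : T_GOOD := Pool.Agent.H62.QC.pf_SGOOD
theorem fun1 : T_FUN := Pool.Agent.H12.QC.pf_SFUN
theorem funs : T_FUNS := Pool.Agent.H12.QC.pf_SFUNS
theorem func : T_FUNC := Pool.Agent.H12.QC.pf_SFUNC
theorem vone : T_VONE := Pool.Agent.H12.QC.pf_SVONE
theorem trans : T_TRANS := Pool.Agent.H93.QC.pf_STRANS sig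
theorem unv : T_UNV := Pool.Agent.H93.QC.pf_SUNV sig
theorem h90 : T_H90 := pf_H90 trans unv
theorem nsy : T_NSY := Pool.Agent.H81.QCF.pf_NSY sig trans vone
theorem lin : T_LIN := Pool.Agent.H78.QCF.pf_LIN
theorem lix : T_LIX := Pool.Agent.H78.QCF.pf_LIX
theorem iso : T_ISO := Pool.Agent.H16.QCF.pf_ISO
theorem bas : T_BAS := Pool.Agent.H78.QCF.pf_BAS su
theorem slot : T_SLOT := Pool.Agent.H16.QCF.pf_SLOT
theorem lsl : T_LSL := Pool.Agent.H81.QCF.LSL.pf_LSL func LA.ndg LA.bim LA.niv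
theorem pfin : T_PFIN := Pool.Agent.H36.QCF.pf_PFIN une hsq
theorem two : Pool.Agent.H12.QC.T_TWO := Pool.Agent.H93.QC.pf_STWO
theorem r1 : Pool.Agent.H12.QC.T_R1 := Pool.Agent.H38.QC.pf_SR1
theorem spi : Pool.Agent.H12.QC.T_SPI := Pool.Agent.H93.QC.pf_SPI sig
theorem sp2 : Pool.Agent.H12.QC.T_SP2 := Pool.Agent.H62.QC.pf_SP2 trans sig

theorem wa : T_WA := Pool.Agent.H19.QC.pf_SWA LA.opv
theorem sin : Pool.Agent.H12.QC.T_SIN := Pool.Agent.H49.QC.pf_SIN wa LA.opv
theorem spf : Pool.Agent.H12.QC.T_SPF := Pool.Agent.H19.QC.pf_SPF sp2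
theorem plc : T_PLC := Pool.Agent.H12.QC.pf_SPLC spf spi
theorem cnt : T_CNT := Pool.Agent.H12.QC.pf_SCNT sin two r1 LA.niv
theorem b1 : T_B1 := pf_B1 LA.al sig h90 su plc nsy vone trans
theorem b2 : T_B2 := pf_B2 b1 nsy chi lin ext
theorem b3 : T_B3 := pf_B3 b2 wa hnd good chi
theorem det : T_DET := Pool.Agent.H38.QCF.pf_DET b3 ext sig funs uus vone
theorem b4 : T_B4 := Pool.Agent.H99.QCF.pf_B4 bas det b2 une unr hsym hsq
theorem b4i : T_B4I := pf_B4I b4 cnt su
theorem b5 : T_B5 := pf_B5 b4i b1 nsy chi hnd wa lix good ext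
theorem b6a : T_B6A := Pool.Agent.H16.QCF.pf_B6A b4i chi hnd wa good une hsq
theorem b6b : T_B6B := pf_B6B b2 une unr
theorem b6c : T_B6C := Pool.Agent.H13.QCF.pf_B6C b5 ext sig slot lsl fun1
theorem b6d : T_B6D := Pool.Agent.H99.QCF.pf_B6D b6a b6c pfin hmul
theorem b6e : T_B6E := Pool.Agent.H99.QCF.pf_B6E b6d b6b cnt su iso chi hnd wa nsq good pfin
  hmul hsym b6c
theorem pf : T_PF := Pool.Agent.H19.QCF.pf_PF b6d b6e pfin
theorem pre : T_PRE := Pool.Agent.H60.QCF.pf_PRE b6a b6e hmul pfin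

/-- Hasse's theorem for conics over number fields -/
theorem hasseConic (K : Type) [Field K] [NumberField K] : HasseConic K := b5 K

/-- the product formula for the Hilbert symbol over number fields -/
theorem prodFormula (K : Type) [Field K] [NumberField K] : ProdFormula K := pf K

/-- existence of elements with prescribed symbols -/
theorem prescribed (K : Type) [Field K] [NumberField K] : Prescribed K := pre K

/-- infinitely many places at which a nonsquare is a nonsquare -/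
theorem inert (K : Type) [Field K] [NumberField K] (a : K) (ha : ¬ IsSquare a) :
    {v : FPl K | ¬ IsSquare (ic v a)}.Infinite := by
  intro hfin
  obtain ⟨v, hv, hva⟩ := b3 K a ha _ hfin
  exact hv hva

/-- a conic with points at all places except possibly one has a point -/
theorem conic_off_one (K : Type) [Field K] [NumberField K] (a b : K) (w₀ : Pl K)
    (ha : a ≠ 0) (hb : b ≠ 0) (h : ∀ w : Pl K, w ≠ w₀ → hs w a b = 1) : Sol a b := by
  refine hasseConic K a b ha hb fun w => ?_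
  by_cases hw : w = w₀
  · subst hw
    have h1 := (prodFormula K a b ha hb).2
    rwa [finprod_eq_single _ w (fun x hx => h x hx)] at h1
  · exact h w hw

end Pool.Agent.H23.QCF.All
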