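import Pool.Agent.H32.QC.Defs

/-!
# Block K: first and second inequality, norm theorem, product formula

All statements are for number fields `K : Type` and quadratic extensions `E / K`.
-/

set_option autoImplicit false

open NumberField IsDedekindDomain Pool.Agent.H32.QC

namespace Pool.Agent.H23.QCF

/-! ## Definitions -/

/-- the units of `K` which are squares at the place `p` -/
def SQ {K : Type} [Field K] [NumberField K] (p : Pl K) : Subgroup Kˣ where
  carrier := {a | sqAt p (a : K)}
  one_mem' := by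
    cases p
    · show IsSquare _
      exact ⟨1, by simp⟩
    · show IsSquare _
      exact ⟨1, by simp⟩
  mul_mem' := by
    intro a b ha hb
    cases p
    · have h1 : IsSquare _ := ha
      have h2 : IsSquare _ := hb
      show IsSquare _
      rw [Units.val_mul, map_mul]
      exact h1.mul h2
    · have h1 : IsSquare _ := ha
      have h2 : IsSquare _ := hb
      show IsSquare _
      rw [Units.val_mul, map_mul]
      exact h1.mul h2
  inv_mem' := by
    intro a ha
    cases p
    · have h1 : IsSquare _ := ha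
      show IsSquare _
      rw [Units.val_inv_eq_inv_val, map_inv₀]
      exact h1.inv
    · have h1 : IsSquare _ := ha
      show IsSquare _
      rw [Units.val_inv_eq_inv_val, map_inv₀]
      exact h1.inv

/-- the units which are squares at all places of a set -/
def SQS {K : Type} [Field K] [NumberField K] (A : Set (Pl K)) : Subgroup Kˣ := ⨅ p ∈ A, SQ p

/-- the squares -/
def sqs (K : Type) [Field K] : Subgroup Kˣ := (powMonoidHom 2 : Kˣ →* Kˣ).range

/-- the set of finite places in `S` together with all real places -/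
def Sp {K : Type} [Field K] [NumberField K] (S : Set (FPl K)) : Set (Pl K) :=
  {p | ∀ v, p = Sum.inl v → v ∈ S}

/-- the `S`-units -/
def US {K : Type} [Field K] [NumberField K] (S : Set (FPl K)) : Subgroup Kˣ where
  carrier := {a | ∀ v, v ∉ S → v.valuation K (a : K) = 1}
  one_mem' := by
    intro v _
    simp
  mul_mem' := by
    intro a b ha hb v hv
    rw [Units.val_mul, map_mul, ha v hv, hb v hv, mul_one]
  inv_mem' := by
    intro a ha v hv
    rw [Units.val_inv_eq_inv_val, map_inv₀, ha v hv, inv_one]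

/-- a finite set of finite places which contains the dyadic places and outside of which every
place has a generator -/
structure Good {K : Type} [Field K] [NumberField K] (S : Set (FPl K)) : Prop where
  fin : S.Finite
  dy : ∀ v, v ∉ S → v.valuation K 2 = 1
  pr : ∀ v, v ∉ S → ∃ π : Kˣ, v.valuation K (π : K) = WithZero.exp (-1 : ℤ) ∧
    ∀ v', v' ∉ S → v' ≠ v → v'.valuation K (π : K) = 1

/-- the number of finite places in `S` and of all infinite places -/
noncomputable def cnt {K : Type} [Field K] [NumberField K] (S : Set (FPl K)) : ℕ :=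
  S.ncard + Fintype.card (InfinitePlace K)

/-- the places in `S` or real at which `t` is not a square -/
def NS {K : Type} [Field K] [NumberField K] (S : Set (FPl K)) (t : K) : Set (Pl K) :=
  {p | p ∈ Sp S ∧ ¬ sqAt p t}

/-- the places at which the symbol is `-1` -/
def PP {K : Type} [Field K] [NumberField K] (a b : K) : Set (Pl K) := {p | hs p a b = -1}

/-- the sets of places of the form `PP u t` -/
def PT {K : Type} [Field K] [NumberField K] (t : K) : Set (Set (Pl K)) :=
  {X | ∃ u : Kˣ, PP (u : K) t = X}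

/-- the places which are no singleton `PP u t` -/
def RR (K : Type) [Field K] [NumberField K] : Set (Pl K) :=
  {p | ∀ t : K, t ≠ 0 → ¬ sqAt p t → ({p} : Set (Pl K)) ∉ PT t}

/-- `E = K(s)` with `s² = t` of degree two -/
structure Quad (K E : Type) [Field K] [NumberField K] [Field E] [NumberField E] [Algebra K E]
    (t : K) (s : E) : Prop where
  nsq : ¬ IsSquare t
  sq : s ^ 2 = algebraMap K E t
  deg : Module.finrank K E = 2

/-- the place below -/
noncomputable def und {K E : Type} [Field K] [NumberField K] [Field E] [NumberField E]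
    [Algebra K E] (w : Pl E) : Pl K :=
  match w with
  | .inl w => .inl (w.under (𝓞 K))
  | .inr φ => .inr (φ.comp (algebraMap K E))

/-- the finite places above `S` -/
def SE {K : Type} (E : Type) [Field K] [NumberField K] [Field E] [NumberField E]
    [Algebra K E] (S : Set (FPl K)) : Set (FPl E) := {w | w.under (𝓞 K) ∈ S}

/-- the norm on units -/
noncomputable def nrm (K E : Type) [Field K] [Field E] [Algebra K E] : Eˣ →* Kˣ :=
  Units.map (Algebra.norm K : E →* K)

/-! ## Inputs from the other blocks -/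

/-- local: the symbol is multiplicative (block B, helper32) -/
def T_HMUL : Prop := ∀ (K : Type) [Field K] [NumberField K] (p : Pl K) (a b t : K),
  a ≠ 0 → b ≠ 0 → t ≠ 0 → hs p (a * b) t = hs p a t * hs p b t

/-- local: the symbol is nondegenerate -/
def T_HND : Prop := ∀ (K : Type) [Field K] [NumberField K] (p : Pl K) (t : K),
  t ≠ 0 → ¬ sqAt p t → ∃ a : K, a ≠ 0 ∧ hs p a t = -1

/-- local: symbols with squares are trivial -/
def T_HSQ : Prop := ∀ (K : Type) [Field K] [NumberField K] (p : Pl K) (a t : K),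
  sqAt p t → hs p a t = 1

/-- local: symmetry -/
def T_HSYM : Prop := ∀ (K : Type) [Field K] [NumberField K] (p : Pl K) (a b : K),
  hs p a b = hs p b a

/-- odd places: even valuations give the trivial symbol -/
def T_UNE : Prop := ∀ (K : Type) [Field K] [NumberField K] (v : FPl K) (a b : K) (m n : ℤ),
  v.valuation K 2 = 1 → v.valuation K a = WithZero.exp m → v.valuation K b = WithZero.exp n →
  Even m → Even n → hs (.inl v) a b = 1

/-- odd places: even valuation, not a square, against odd valuation -/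
def T_UNR : Prop := ∀ (K : Type) [Field K] [NumberField K] (v : FPl K) (a t : K) (m n : ℤ),
  v.valuation K 2 = 1 → v.valuation K a = WithZero.exp m → v.valuation K t = WithZero.exp n →
  Odd m → Even n → ¬ sqAt (.inl v) t → hs (.inl v) a t = -1

/-- odd places: the product of two units which are not squares is a square -/
def T_UUS : Prop := ∀ (K : Type) [Field K] [NumberField K] (v : FPl K) (a b : K),
  v.valuation K 2 = 1 → v.valuation K a = 1 → v.valuation K b = 1 →
  ¬ sqAt (.inl v) a → ¬ sqAt (.inl v) b → sqAt (.inl v) (a * b)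

/-- every place of `Pl` has a nonsquare -/
def T_NSQ : Prop := ∀ (K : Type) [Field K] [NumberField K] (p : Pl K),
  ∃ a : K, a ≠ 0 ∧ ¬ sqAt p a

/-- weak approximation modulo local squares (block S, helper12) -/
def T_WA : Prop := ∀ (K : Type) [Field K] [NumberField K] (A : Set (Pl K)), A.Finite →
  ∀ x : Pl K → Kˣ, ∃ y : Kˣ, ∀ p, p ∈ A → sqAt p ((y * x p : Kˣ) : K)

/-- the number of square classes (block A, helper55) -/
def T_CNT : Prop := ∀ (K : Type) [Field K] [NumberField K] (S : Set (FPl K)), S.Finite →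
  (∀ v, v ∉ S → v.valuation K 2 = 1) → (SQS (Sp S)).index = 4 ^ cnt S

/-- the theorem on `S`-units (block S, helper12) -/
def T_SU : Prop := ∀ (K : Type) [Field K] [NumberField K] (S : Set (FPl K)), S.Finite →
  (sqs K).relIndex (US S) = 2 ^ cnt S

/-- good sets exist (block S, helper12) -/
def T_GOOD : Prop := ∀ (K : Type) [Field K] [NumberField K] (A : Set (FPl K)), A.Finite →
  ∃ S, A ⊆ S ∧ Good S

/-- places of `E` above the places of `S` (block S, helper12) -/
def T_PLC : Prop := ∀ (K E : Type) [Field K] [NumberField K] [Field E] [NumberField E]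
  [Algebra K E] (t : K) (s : E), Quad K E t s → ∀ S : Set (FPl K), S.Finite →
  (SE E S).Finite ∧ 2 * cnt S ≤ cnt (SE E S) + (NS S t).ncard

/-- functoriality of the symbol (block S, helper12) -/
def T_FUN : Prop := ∀ (K E : Type) [Field K] [NumberField K] [Field E] [NumberField E]
  [Algebra K E] (w : Pl E) (a b : K), hs (und w : Pl K) a b = 1 →
  hs w (algebraMap K E a) (algebraMap K E b) = 1

/-- functoriality of squares (block S, helper12) -/
def T_FUNS : Prop := ∀ (K E : Type) [Field K] [NumberField K] [Field E] [NumberField E]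
  [Algebra K E] (w : Pl E) (a : K), sqAt (und w : Pl K) a → sqAt w (algebraMap K E a)

/-- functoriality: the completion below embeds (block S, helper12) -/
def T_FUNC : Prop := ∀ (K E : Type) [Field K] [NumberField K] [Field E] [NumberField E]
  [Algebra K E] (w : FPl E), ∃ f : (w.under (𝓞 K)).adicCompletion K →+* w.adicCompletion E,
  ∀ a : K, f (ic (w.under (𝓞 K)) a) = ic w (algebraMap K E a)

/-- valuations at unramified places (block S, helper12) -/
def T_UNV : Prop := ∀ (K E : Type) [Field K] [NumberField K] [Field E] [NumberField E]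
  [Algebra K E] (t : K) (s : E), Quad K E t s → ∀ w : FPl E,
  (w.under (𝓞 K)).valuation K 2 = 1 → (w.under (𝓞 K)).valuation K t = 1 →
  ∀ x : K, w.valuation E (algebraMap K E x) = (w.under (𝓞 K)).valuation K x

/-- the valuation `1` is detected below (block S, helper12) -/
def T_VONE : Prop := ∀ (K E : Type) [Field K] [NumberField K] [Field E] [NumberField E]
  [Algebra K E] (w : FPl E) (x : K), w.valuation E (algebraMap K E x) = 1 ↔
  (w.under (𝓞 K)).valuation K x = 1

/-- places above one place are conjugate (block S, helper12) -/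
def T_TRANS : Prop := ∀ (K E : Type) [Field K] [NumberField K] [Field E] [NumberField E]
  [Algebra K E] (t : K) (s : E), Quad K E t s → ∀ σ : E ≃ₐ[K] E, σ s = -s →
  (∀ w : FPl E, ∃ w' : FPl E, w'.under (𝓞 K) = w.under (𝓞 K) ∧
    ∀ x : E, w'.valuation E x = w.valuation E (σ x)) ∧
  ∀ w w' : FPl E, w'.under (𝓞 K) = w.under (𝓞 K) → w' = w ∨
    ∀ x : E, w'.valuation E x = w.valuation E (σ x)

/-! ## Targets of block K -/

/-- K1: the algebraic lemma -/
def T_AL : Prop := ∀ (M : Type) [CommGroup M] (σ : M →* M), (∀ x, σ (σ x) = x) →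
  (∀ x, x * σ x = 1 → ∃ y, x * σ y = y) →
  ∀ B : Subgroup M, (∀ x, x ∈ B ↔ σ x = x) →
  (B.map (powMonoidHom 2)).relIndex (B ⊓ (powMonoidHom 2 : M →* M).range) = 2 →
  (powMonoidHom 2 : M →* M).range.index ≠ 0 → (B.map (powMonoidHom 2)).relIndex B ≠ 0 →
  2 * (powMonoidHom 2 : M →* M).range.index *
    ((MonoidHom.id M * σ : M →* M).range).relIndex B = ((B.map (powMonoidHom 2)).relIndex B) ^ 2

/-- K2: the quadratic extension exists -/
def T_EXT : Prop := ∀ (K : Type) [Field K] [NumberField K] (t : K), ¬ IsSquare t →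
  ∃ (E : Type) (_ : Field E) (_ : NumberField E) (_ : Algebra K E) (s : E), Quad K E t s

/-- K3: the conjugation -/
def T_SIG : Prop := ∀ (K E : Type) [Field K] [NumberField K] [Field E] [NumberField E]
  [Algebra K E] (t : K) (s : E), Quad K E t s → ∃ σ : E ≃ₐ[K] E, σ s = -s ∧
  (∀ x, σ (σ x) = x) ∧ (∀ x, algebraMap K E (Algebra.norm K x) = x * σ x) ∧
  (∀ x, σ x = x → ∃ y : K, algebraMap K E y = x) ∧
  (∀ x, ∃ a b : K, x = algebraMap K E a + algebraMap K E b * s) ∧
  (∀ a b : K, Algebra.norm K (algebraMap K E a + algebraMap K E b * s) = a ^ 2 - t * b ^ 2) ∧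
  ∀ x : K, IsSquare (algebraMap K E x) → IsSquare x ∨ IsSquare (x * t)

/-- K4: Hilbert's theorem 90 for `S`-units -/
def T_H90 : Prop := ∀ (K E : Type) [Field K] [NumberField K] [Field E] [NumberField E]
  [Algebra K E] (t : K) (s : E), Quad K E t s → ∀ σ : E ≃ₐ[K] E, σ s = -s →
  ∀ S : Set (FPl K), Good S → (∀ v, v ∉ S → v.valuation K t = 1) →
  ∀ x : Eˣ, x ∈ US (SE E S) → (x : E) * σ x = 1 →
  ∃ y : Eˣ, y ∈ US (SE E S) ∧ (x : E) * σ y = y

/-- K5: the count of the norms of `S`-units -/
def T_B1 : Prop := ∀ (K E : Type) [Field K] [NumberField K] [Field E] [NumberField E]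
  [Algebra K E] (t : K) (s : E), Quad K E t s → ∀ S : Set (FPl K), Good S →
  (∀ v, v ∉ S → v.valuation K t = 1) →
  ((US (SE E S)).map (nrm K E)).relIndex (US S) ≠ 0 ∧
  2 * ((US (SE E S)).map (nrm K E)).relIndex (US S) ≤ 2 ^ (NS S t).ncard

/-- K6: norms have trivial symbols -/
def T_NSY : Prop := ∀ (K E : Type) [Field K] [NumberField K] [Field E] [NumberField E]
  [Algebra K E] (t : K) (s : E), Quad K E t s → ∀ S : Set (FPl K),
  (US (SE E S)).map (nrm K E) ≤ US S ∧
  (∀ x : Eˣ, ∀ p : Pl K, hs p (nrm K E x : K) t = 1) ∧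
  ∀ a : K, a ≠ 0 → (Sol a t ↔ ∃ x : E, Algebra.norm K x = a)

/-- K7: the first inequality -/
def T_B2 : Prop := ∀ (K : Type) [Field K] [NumberField K] (S : Set (FPl K)), Good S →
  ∀ t : Kˣ, t ∈ US S → ¬ IsSquare (t : K) →
  ∃ T : Set (Pl K), T ⊆ NS S (t : K) ∧ T.Nonempty ∧
  ∀ u : Kˣ, u ∈ US S → Even ({p | p ∈ T ∧ hs p (u : K) (t : K) = -1}.ncard)

/-- K8: nonsplit places exist outside every finite set -/
def T_B3 : Prop := ∀ (K : Type) [Field K] [NumberField K] (t : K), ¬ IsSquare t →
  ∀ A : Set (FPl K), A.Finite → ∃ v, v ∉ A ∧ ¬ sqAt (.inl v) t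

/-- K9: detection of independent elements -/
def T_DET : Prop := ∀ (n : ℕ) (K : Type) [Field K] [NumberField K] (t : Kˣ) (l : Fin n → Kˣ),
  t ∉ sqs K ⊔ Subgroup.closure (Set.range l) →
  ∀ A : Set (FPl K), A.Finite → ∃ v, v ∉ A ∧ ¬ sqAt (.inl v) (t : K) ∧
  ∀ i, sqAt (.inl v) (l i : K)

/-- K10: a basis of the `S`-units modulo squares which starts with `t` -/
def T_BAS : Prop := ∀ (K : Type) [Field K] [NumberField K] (S : Set (FPl K)), S.Finite →
  ∀ t : Kˣ, t ∈ US S → t ∉ sqs K → ∃ (n : ℕ) (l : Fin n → Kˣ), n + 1 = cnt S ∧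
  (∀ i, l i ∈ US S) ∧ ∀ i, l i ∉ sqs K ⊔ Subgroup.closure ({t} ∪ l '' {i}ᶜ)

/-- K11: the auxiliary places -/
def T_B4 : Prop := ∀ (K : Type) [Field K] [NumberField K] (S : Set (FPl K)), Good S →
  ∀ t : Kˣ, t ∈ US S → ¬ IsSquare (t : K) → ∃ S' : Set (FPl K), S ⊆ S' ∧ Good S' ∧
  cnt S' + 1 = 2 * cnt S ∧ (∀ v, v ∈ S' → v ∉ S → sqAt (.inl v) (t : K)) ∧
  ∀ u : Kˣ, u ∈ US S' → u ∈ SQS (Sp S) → u ∈ sqs K

/-- K12: the second inequality -/
def T_B4I : Prop := ∀ (K : Type) [Field K] [NumberField K] (S : Set (FPl K)), Good S →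
  ∀ t : Kˣ, t ∈ US S → ¬ IsSquare (t : K) → ∃ S' : Set (FPl K), S ⊆ S' ∧ Good S' ∧
  (∀ v, v ∈ S' → v ∉ S → sqAt (.inl v) (t : K)) ∧ (US S' ⊔ SQS (Sp S)).index = 2

/-- K13: the norm theorem -/
def T_B5 : Prop := ∀ (K : Type) [Field K] [NumberField K], HasseConic K

/-- K14: the symbols are trivial almost everywhere -/
def T_PFIN : Prop := ∀ (K : Type) [Field K] [NumberField K] (a b : K), a ≠ 0 → b ≠ 0 →
  (PP a b).Finite ∧ (∀ p ∈ PP a b, ¬ sqAt p b) ∧
  ∀ S : Set (FPl K), (∀ v, v ∉ S → v.valuation K 2 = 1) → (∀ v, v ∉ S → v.valuation K a = 1) →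
  (∀ v, v ∉ S → v.valuation K b = 1) → PP a b ⊆ Sp S

/-- K15: index at most two -/
def T_B6A : Prop := ∀ (K : Type) [Field K] [NumberField K] (t : K), ¬ IsSquare t →
  ∀ X Y : Set (Pl K), X.Finite → Y.Finite → (∀ p ∈ X, ¬ sqAt p t) → (∀ p ∈ Y, ¬ sqAt p t) →
  X ∉ PT t → Y ∉ PT t → symmDiff X Y ∈ PT t

/-- K16: not all singletons occur -/
def T_B6B : Prop := ∀ (K : Type) [Field K] [NumberField K] (S : Set (FPl K)), Good S →
  ∀ t : Kˣ, t ∈ US S → ¬ IsSquare (t : K) → ∃ p ∈ NS S (t : K), ({p} : Set (Pl K)) ∉ PT (t : K)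

/-- K17: common slots, algebra -/
def T_SLOT : Prop := ∀ (K E : Type) [Field K] [CharZero K] [Field E] [Algebra K E] (t : K)
  (s : E) (a b : K), ¬ IsSquare t → s ^ 2 = algebraMap K E t →
  (∀ x : E, ∃ c d : K, x = algebraMap K E c + algebraMap K E d * s) → a ≠ 0 → b ≠ 0 →
  Sol (algebraMap K E a) (algebraMap K E b) →
  ∃ z : K, z ≠ 0 ∧ ∀ (L : Type) [Field L] (f : K →+* L), Sol (f a) (f b) ↔ Sol (f z) (f t)

/-- K18: over `E` everything from below is trivial at the places which do not split -/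
def T_LSL : Prop := ∀ (K E : Type) [Field K] [NumberField K] [Field E] [NumberField E]
  [Algebra K E] (t : K) (s : E), Quad K E t s → ∀ w : Pl E, ¬ sqAt (und w : Pl K) t →
  ∀ a b : K, a ≠ 0 → b ≠ 0 → hs w (algebraMap K E a) (algebraMap K E b) = 1

/-- K19: singletons are universal -/
def T_B6C : Prop := ∀ (K : Type) [Field K] [NumberField K] (p : Pl K) (t t' : K),
  t ≠ 0 → t' ≠ 0 → ¬ sqAt p t' → ({p} : Set (Pl K)) ∈ PT t → ({p} : Set (Pl K)) ∈ PT t'

/-- K20: the parity over `RR` -/
def T_B6D : Prop := ∀ (K : Type) [Field K] [NumberField K] (a b : K), a ≠ 0 → b ≠ 0 →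
  Even ((PP a b ∩ RR K).ncard)

/-- K21: counting -/
def T_B6E : Prop := ∀ (K : Type) [Field K] [NumberField K], RR K = Set.univ

/-- K24: isotropic subgroups are small -/
def T_ISO : Prop := ∀ (G : Type) [CommGroup G] (b : G →* G →* ℤˣ) (D I : Subgroup G),
  D.index ≠ 0 → (∀ x, x ∈ D ↔ ∀ y, b x y = 1) → (∀ x y, b x y = b y x) →
  (∀ x, x ∈ I → ∀ y, y ∈ I → b x y = 1) → (D.relIndex I) ^ 2 ≤ D.index

/-- K25: few values of a family of signs force a relation -/
def T_LIN : Prop := ∀ (G : Type) [CommGroup G] (ι : Type) [Fintype ι] (χ : ι → (G →* ℤˣ))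
  (U : Subgroup G), 2 * (⨅ i, (χ i).ker).relIndex U ≤ 2 ^ Fintype.card ι →
  ∃ T : Finset ι, T.Nonempty ∧ ∀ g, g ∈ U → ∏ i ∈ T, χ i g = 1

/-- K26: independent signs -/
def T_LIX : Prop := ∀ (G : Type) [CommGroup G] (ι : Type) [Fintype ι] (χ : ι → (G →* ℤˣ)),
  (∀ i, ∃ g, χ i g = -1 ∧ ∀ j, j ≠ i → χ j g = 1) →
  (⨅ i, (χ i).ker).index = 2 ^ Fintype.card ι

/-- K27: the symbol as a homomorphism -/
def T_CHI : Prop := ∀ (K : Type) [Field K] [NumberField K] (p : Pl K) (t : K), t ≠ 0 →
  ∃ χ : Kˣ →* ℤˣ, (∀ a : Kˣ, ((χ a : ℤˣ) : ℤ) = hs p (a : K) t) ∧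
  ∀ a : Kˣ, sqAt p (a : K) → χ a = 1

/-- K22: the product formula -/
def T_PF : Prop := ∀ (K : Type) [Field K] [NumberField K], ProdFormula K

/-- K23: prescribed symbols -/
def T_PRE : Prop := ∀ (K : Type) [Field K] [NumberField K], Prescribed K

end Pool.Agent.H23.QCF
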