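import Pool.Agent.H16.QCL.QUI
import Pool.Agent.H16.QCL.TAM
import Pool.Agent.H32.QCL.TER
import Pool.Agent.H38.QCL.PBM
import Pool.Agent.H44.QCL.PFS
import Pool.Agent.H55.QCL.ADC
import Pool.Agent.H55.QCL.APR
import Pool.Agent.H55.QCL.CAR
import Pool.Agent.H55.QCL.CSQ
import Pool.Agent.H55.QCL.CTW
import Pool.Agent.H55.QCL.HEN
import Pool.Agent.H55.QCL.NIX
import Pool.Agent.H55.QCL.OFI
import Pool.Agent.H55.QCL.QEX
import Pool.Agent.H55.QCL.SQI
import Pool.Agent.H55.QCL.VAL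
import Pool.Agent.H69.QCL.PND
import Pool.Agent.H69.QCL.REA
import Pool.Agent.H69.QCL.UNI
import Pool.Agent.H70.QCL.UNR
import Pool.Agent.H85.QCL.NIV
import Pool.Agent.H85.QCL.ODD
import Pool.Agent.H86.QCL.AL
import Pool.Agent.H97.QCL.BIM
import Pool.Agent.H97.QCL.NDG
import Pool.Agent.H97.QCL.PSG
import Pool.Agent.H97.QCL.QUA
import Pool.Agent.H99.QCL.NIA

/-!
# The local block, assembled
-/

set_option autoImplicit false

namespace Pool.Agent.H23.QCF.LA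

open Pool.Agent.H32.QC

theorem hen : T_HEN := Pool.Agent.H55.QCL.pf_HEN
theorem ofi : T_OFI := Pool.Agent.H55.QCL.pf_OFI
theorem uix : T_UIX := Pool.Agent.H55.QCL.pf_UIX
theorem val : T_VAL := Pool.Agent.H55.QCL.pf_VAL
theorem sqi : T_SQI := Pool.Agent.H55.QCL.pf_SQI
theorem tfi : T_TFI := Pool.Agent.H55.QCL.pf_TFI
theorem car : T_CAR := Pool.Agent.H55.QCL.pf_CAR sqi hen uix ofi val
theorem csq : T_CSQ := Pool.Agent.H55.QCL.pf_CSQ tfi ofi
theorem qex : T_QEX := Pool.Agent.H55.QCL.pf_QEX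
theorem al : T_AL := Pool.Agent.H86.QCL.pf_AL
theorem nia : T_NIA := Pool.Agent.H99.QCL.pf_NIA al
theorem nix : T_NIX := Pool.Agent.H55.QCL.pf_NIX nia car csq qex
theorem apr : T_APR := Pool.Agent.H55.QCL.pf_APR
theorem adc : T_ADC := Pool.Agent.H55.QCL.pf_ADC apr
theorem ctw : T_CTW := Pool.Agent.H55.QCL.pf_CTW apr
theorem niv : T_NIV := Pool.Agent.H85.QCL.pf_NIV adc nix car ctw
theorem opn : T_OPN := Pool.Agent.H55.QCL.pf_OPN hen
theorem opv : T_OPV := Pool.Agent.H85.QCL.pf_OPV adc opn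
theorem bim : T_BIM := Pool.Agent.H97.QCL.pf_BIM
theorem ndg : T_NDG := Pool.Agent.H97.QCL.pf_NDG
theorem ter : T_TER := Pool.Agent.H32.QCL.pf_TER bim
theorem qua : T_QUA := Pool.Agent.H97.QCL.pf_QUA ter
theorem qui : T_QUI := Pool.Agent.H16.QCL.pf_QUI ter
theorem uni : T_UNI := Pool.Agent.H69.QCL.pf_UNI qui
theorem rea : T_REA := Pool.Agent.H69.QCL.pf_REA
theorem unr : T_UNR := Pool.Agent.H70.QCL.pf_UNR hen
theorem tam : T_TAM := Pool.Agent.H16.QCL.pf_TAM hen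
theorem odd : T_ODD := Pool.Agent.H85.QCL.pf_ODD adc unr tam
theorem psg : T_PSG := Pool.Agent.H97.QCL.pf_PSG
theorem pbm : T_PBM := Pool.Agent.H38.QCL.pf_PBM niv rea bim
theorem pnd : T_PND := Pool.Agent.H69.QCL.pf_PND niv ndg opv apr
theorem pfs : T_PFS := Pool.Agent.H44.QCL.pf_PFS odd

end Pool.Agent.H23.QCF.LA
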